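import Pool.Agent.WT.LotAll
import Pool.Agent.WT.Contract

/-!
# Almost all labelled oriented trees are aspherical

Partial result on Whitehead's asphericity question for subcomplexes of contractible 2-complexes. A
labelled oriented tree `Γ` gives a 2-complex with one vertex and one 2-cell for every edge, and adding
one more 2-cell makes it a contractible complex `K(Γ, v)`. For all but a proportion `(log n) ^ 37 / n`
of the labelled oriented trees with `n` vertices, all subcomplexes of `K(Γ, v)` that do not contain
the last 2-cell are aspherical.
-/

set_option autoImplicit false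

namespace Pool.Agent.Results.MP_6de9fc_gt.AlmostAllLots

open Pool.Agent.WT

/-- For all large `n`, the number of the labelled oriented trees `Γ` with vertex set `Fin n` for which
it is not true that

* the complex `K(Γ, v)` is contractible for every vertex `v`, and
* every subcomplex of `K(Γ, v)` that does not contain the 2-cell of `v` is aspherical,

is at most `(log n) ^ 37 / n` times the number of all of them. -/
theorem result : ∀ᶠ n : ℕ in Filter.atTop,
    ({Γ : LOT (Fin n) | ¬ ((∀ v, Γ.Contractible v) ∧ Γ.SubAspherical)}.ncard : ℝ) ≤
      (Real.log n) ^ 37 / n * Nat.card (LOT (Fin n)) := by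
  refine rare_all (fun n Γ => ¬ ((∀ v, Γ.Contractible v) ∧ Γ.SubAspherical))
    (Pool.Agent.RandomLOT.Cnt.Ctot 36) 36 ?_
  intro n Δ G hG o
  have h := per_tree_all Δ G hG o
  rw [Fintype.card_fin] at h
  have hset : {label : G.1.edgeSet → Fin n |
      ¬ ((∀ v, (mkLOT G o label).Contractible v) ∧ (mkLOT G o label).SubAspherical)} =
      {label : G.1.edgeSet → Fin n | ¬ (mkLOT G o label).SubAspherical} := by
    ext label
    refine not_congr ?_
    exact and_iff_right (fun v => (mkLOT G o label).contractible v)
  rw [hset]
  exact h

end Pool.Agent.Results.MP_6de9fc_gt.AlmostAllLots
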