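import Pool.Agent.OC.Final
import Pool.Agent.OC2.ManyLaw
import Pool.Agent.OC3.Normal

/-!
# Whitehead's question for subcomplexes: one missing 2-cell

Consequences of one failure of the answer `yes` to Whitehead's asphericity question for subcomplexes
of finite contractible 2-complexes (Q1). A finite 2-complex with one vertex is a finite presentation.
If a subcomplex of a contractible complex `K` is not aspherical, then there is an explicit contractible
complex `K'` such that `K'` without ONE open 2-cell is not aspherical, and the missing cell is
invisible in the finite and in the solvable quotients of the fundamental group. If `K` 3-deforms to a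
point, so does `K'`, and then the question fails for the complex of a labelled oriented interval in
which every vertex is the label of at most two edges, and it fails, already for one missing 2-cell, for
almost all labelled oriented trees.
-/

set_option autoImplicit false

namespace Pool.Agent.Results.MP_6de9fc_gt.OneMissingCell

open Pool.Agent.FoxAsph Pool.Agent.WT Pool.Agent.RelGap Pool.Agent.ZO Pool.Agent.OC

/-- Let `K = ⟨X ∣ rel i (i : ι)⟩` be a finite contractible complex and let its subcomplex with the
generators in `U` and the relators `rel i` for `i` in `R` be not aspherical.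

(1) Take one new generator `t`, the relators `rel i` for `i` in `R` and the relators
`(t w t⁻¹)⁻¹ w (t w t⁻¹) w⁻²` with `w = rel i` for `i` not in `R`: this complex `oneCell rel R` is not
aspherical, and with one more 2-cell, attached along `t`, it is contractible. Every homomorphism from
its fundamental group to a finite or solvable group kills all generators but `t`, and the commutator
subgroup of the fundamental group is perfect.

(2) Let `K` 3-deform to a point. Then so does the contractible complex of (1), and so do the complexes
`K(Γ, v)` of all labelled oriented trees `Γ`. There is a labelled oriented tree `Γ` whose tree is a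
path, which is reduced, in which every vertex is the label of at most two edges, and whose complex
(`K(Γ, v)` without its last 2-cell) is not aspherical. There is a constant `C > 0` such that for every
`n ≥ 1`, for all labelled oriented trees `Γ` on the vertex set `Fin n` except for at most a proportion
of `C * exp (-n ^ (1 / 3) / C)` of them, and for all reduced ones except for at most the same
proportion of the reduced ones, for every vertex `v` there are at least `n ^ (2 / 3) / C` edges `e`
such that `K(Γ, v)` without the open 2-cell of `e` is not aspherical. -/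
theorem result (X ι : Type) [Fintype X] [Fintype ι] [DecidableEq ι] (rel : ι → Word X) (U : Set X)
    (R : Finset ι) (h : ∀ i ∈ R, ∀ l ∈ rel i, l.1 ∈ U) (hK : Contractible rel)
    (hL : ¬ Aspherical (SubPres rel U R h)) :
    (¬ Aspherical (oneCell rel R) ∧ Contractible (addRel (oneCell rel R) [(none, true)]) ∧
      (∀ (Q : Type) [Group Q], Finite Q ∨ Group.IsSolvable Q →
        ∀ (φ : Grp (oneCell rel R) →* Q) (x : X), φ (val (oneCell rel R) [(some x, true)]) = 1) ∧
      ⁅commutator (Grp (oneCell rel R)), commutator (Grp (oneCell rel R))⁆ =
        commutator (Grp (oneCell rel R))) ∧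
    (ACTrivial rel → ACTrivial (addRel (oneCell rel R) [(none, true)]) ∧
      (∀ (n : ℕ) (Γ : LOT (Fin n)) (v : Fin n), ACTrivial (Γ.relPlus v)) ∧
      (∃ (n : ℕ) (Γ : LOT (Fin n)), Γ.graph = SimpleGraph.pathGraph n ∧ Γ.Reduced ∧
        (∀ v, {e | Γ.label e = v}.ncard ≤ 2) ∧ ¬ LotAspherical Γ) ∧
      ∃ C : ℝ, 0 < C ∧ ∀ n : ℕ, 0 < n →
        ({Γ : LOT (Fin n) | ¬ ManyBad Γ ((n : ℝ) ^ (2 / 3 : ℝ) / C)}.ncard : ℝ) ≤
            C * Real.exp (-((n : ℝ) ^ (1 / 3 : ℝ) / C)) * Nat.card (LOT (Fin n)) ∧
          ({Γ : LOT (Fin n) | Γ.Reduced ∧ ¬ ManyBad Γ ((n : ℝ) ^ (2 / 3 : ℝ) / C)}.ncard : ℝ) ≤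
            C * Real.exp (-((n : ℝ) ^ (1 / 3 : ℝ) / C)) *
              {Γ : LOT (Fin n) | Γ.Reduced}.ncard) := by
  obtain ⟨h1, h2, h3, h4⟩ := partA rel hK U R h hL
  refine ⟨⟨h2, h1, h3, commutator_perfect _ fun Q _ hQ φ x => h3 Q (Or.inr hQ) φ x⟩,
    fun hAC => ⟨h4 hAC, fun _ Γ v => lot_acTrivial Γ v, ?_, ?_⟩⟩
  · obtain ⟨F, hF⟩ := howie rel hAC U R h hL
    exact exists_interval F hF
  · rcases expLaw1 with hall | hlaw
    · exact absurd (hall X ι rel hAC U R h) hL
    · exact hlaw

end Pool.Agent.Results.MP_6de9fc_gt.OneMissingCell
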