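import Pool.Agent.VND.Normz

/-!
# Finitely generated perfect subgroups, `l^2`-Betti numbers and Whitehead's asphericity question

Partial result on Whitehead's question for subcomplexes of finite contractible 2-complexes (Q1). Let
`L` be a connected subcomplex of a finite contractible 2-complex with first Betti number
`b₁(L) ≥ 1`, and `G` its fundamental group. It is classical (Howie 1979) that `L` is aspherical if `G`
has no finitely generated perfect subgroup other than the trivial one. Here: if `L` is not aspherical,
then for every positive `c` smaller than the first `l^2`-Betti number `b(G)` of `G` (which is larger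
than `b₁(L) - 1`) there is a finitely generated perfect subgroup `P` of `G` such that, for every
finitely generated subgroup `H` of `G`, the action of `P` on the right cosets of `H` has at most
`b(H) / c` fixed points. (For `H = G` there is one fixed point, so no larger `c` is possible.) So `L` is
aspherical, for instance, if every finitely generated perfect subgroup of `G` has an infinite
centralizer, or lies in a finitely generated subgroup `H` with `b(H) ≤ b₁(L) - 1` (such as a subgroup
with `b₁(L)` generators) or of infinite index in its normalizer.
-/

set_option autoImplicit false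

namespace Pool.Agent.Results.MP_6de9fc_gt.PerfectFixedPoints

open Pool.Agent.FoxAsph Pool.Agent.RelGap Pool.Agent.VND

/-- Let `K`, the presentation complex of `extend rel extra`, be contractible, let its subcomplex `L`
be the presentation complex of `rel`, with `m` generators and `n < m` relators, and let
`G = Grp rel` be the fundamental group of `L`. The first Betti number of `L` is `m - n`.

(1) If `L` is not aspherical, then the first `l^2`-Betti number of `G` is larger than `m - n - 1`, and
for every `c` with `0 < c < firstBetti G` there is a finitely generated perfect subgroup `P` of `G` such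
that for every finitely generated subgroup `H` of `G` the set of the right cosets `H g` with
`g P g⁻¹ ≤ H` is finite and has at most `firstBetti H / c` elements.

(2) So `L` is aspherical if every finitely generated perfect subgroup of `G` has an infinite
centralizer, or lies in a subgroup generated by at most `m - n` elements, or lies in a finitely
generated subgroup `H` with `firstBetti H ≤ m - n - 1` or of infinite index in its normalizer; or if
there are a number `N` and a nontrivial homomorphism `χ` from `G` to the integers such that every
finitely generated perfect subgroup of `G` lies in a finitely generated subgroup `H` of the kernel of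
`χ` with `firstBetti H ≤ N`; or if the numbers `firstBetti P`, for `P` a finitely generated perfect
subgroup of `G`, are bounded. -/
theorem result {m n a b : ℕ} (rel : Fin n → Word (Fin m)) (extra : Fin b → Word (Fin m ⊕ Fin a))
    (hK : Contractible (extend rel extra)) (hnm : n < m) :
    (¬ Aspherical rel → (m : ℝ) - n - 1 < firstBetti (Grp rel) ∧
      ∀ c : ℝ, 0 < c → c < firstBetti (Grp rel) → ∃ P : Subgroup (Grp rel), P.FG ∧ ⁅P, P⁆ = P ∧
        ∀ H : Subgroup (Grp rel), H.FG →
          (fixedCosets H P).Finite ∧ c * (fixedCosets H P).ncard ≤ firstBetti H) ∧
    ((∀ P : Subgroup (Grp rel), P.FG → ⁅P, P⁆ = P →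
        (Subgroup.centralizer (P : Set (Grp rel)) : Set (Grp rel)).Infinite ∨
        (∃ T : Finset (Grp rel), T.card + n ≤ m ∧ P ≤ Subgroup.closure (T : Set (Grp rel))) ∨
        ∃ H : Subgroup (Grp rel), H.FG ∧ P ≤ H ∧ (firstBetti H ≤ (m : ℝ) - n - 1 ∨
          H.relIndex (Subgroup.normalizer (H : Set (Grp rel))) = 0)) ∨
      (∃ (N : ℝ) (χ : Grp rel →* Multiplicative ℤ), χ ≠ 1 ∧
        ∀ P : Subgroup (Grp rel), P.FG → ⁅P, P⁆ = P → ∃ H : Subgroup (Grp rel), H.FG ∧ P ≤ H ∧
          H ≤ χ.ker ∧ firstBetti H ≤ N) ∨
      (∃ N : ℝ, ∀ P : Subgroup (Grp rel), P.FG → ⁅P, P⁆ = P → firstBetti P ≤ N) →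
      Aspherical rel) := by
  refine ⟨?_, ?_⟩
  · simp only [firstBetti_eq]
    exact fun hL => ⟨lt_l2Betti rel extra hK hnm hL, fixed_points rel extra hK hnm hL⟩
  · rintro (h | ⟨N, χ, hχ, h⟩ | ⟨N, h⟩)
    · exact aspherical_cases rel extra hK hnm h
    · simp only [firstBetti_eq] at h
      exact aspherical_bounded_char rel extra hK hnm N χ hχ h
    · simp only [firstBetti_eq] at h
      exact aspherical_bounded_perf rel extra hK hnm N h

end Pool.Agent.Results.MP_6de9fc_gt.PerfectFixedPoints
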