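import Pool.Agent.RelGap.Exact
import Pool.Agent.RelGap.Sub
import Pool.Agent.RelGap.KContr

/-!
# A relation gap, and a covering with perfect group that is not acyclic

The free group `F` on `s, u, t` and the normal closure `N` of `s³ u⁻³`, `(s u)² s⁻³` and
`(s⁻³ t s² t⁻¹)²`. The relation module `N / [N, N]` is generated by two elements `v, w`, although `N` is
not the normal closure of two elements (a relation gap) and `G = F / N` has torsion.
The presentation complex `K` of `⟨s, u, t ∣ v, w, t⟩` is contractible, so the presentation complex `L` of
`⟨s, u, t ∣ v, w⟩` is a connected subcomplex of a finite contractible 2-complex. Its covering with group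
`G` has the perfect fundamental group `N / ⟨⟨v, w⟩⟩` and is not acyclic: its chain complex
`ℤ[G]² → ℤ[G]³ → ℤ[G]`, with the Fox derivatives of `v, w` as first map, is exact in the middle, but the
first map is not injective. So the version of Whitehead's question for algebraic 2-complexes has a
negative answer. The algebraic 2-complex is not the complex of a 2-complex with fundamental group `G`:
every finite presentation of `G` has at least as many relators as generators. And `G` is not the
fundamental group of a connected subcomplex of a finite contractible 2-complex. (In such a group the
elements of finite order lie in finitely generated perfect subgroups, `Gap.finite_order`.)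
-/

set_option autoImplicit false

namespace Pool.Agent.Results.MP_6de9fc_gt.RelationModule

open Pool.Agent.FoxAsph Pool.Agent.RelGap

/-- (1) The two elements `v, w` of `N` generate `N` as a normal subgroup modulo `[N, N]`, that is,
they generate the relation module `N / [N, N]` of `G = F / N`, but (2) `N` is not the normal closure of
two elements: the finite presentation `F / N` has a relation gap. (3) The presentation complex `K` with
the relators `v, w, t` is contractible; it contains the presentation complex `L` with the relators
`v, w`. (4) `G` has an element of order two. (5) The rows of Fox derivatives of `v` and `w` generate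
the kernel of `ℤ[G]³ → ℤ[G]`, `r ↦ ∑ r x * (x - 1)`, over `ℤ[G]`: the sequence
`ℤ[G]² → ℤ[G]³ → ℤ[G]`, the chain complex of the covering of `L` with group `G`, is exact in the middle,
an algebraic 2-complex of Euler characteristic 0, and (6) the two rows are linearly dependent over
`ℤ[G]`: the first map is not injective. (7) Every finite presentation of `G` has at least as many
relators as generators: every finite presentation complex with the group `G` has Euler characteristic at
least 1. (8) If the presentation complex of `extend rel extra` is contractible, so that the presentation
complex `L'` of `rel` is a connected subcomplex of a finite contractible 2-complex, then the fundamental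
group of `L'` is not isomorphic to `G`. -/
theorem result :
    (v ∈ N ∧ w ∈ N ∧ Subgroup.normalClosure {v, w} ⊔ ⁅N, N⁆ = N) ∧
    (∀ a b : F, Subgroup.normalClosure {a, b} ≠ N) ∧
    Contractible (addRel ![v.toWord, w.toWord] t.toWord) ∧
    (∃ g : G, g ≠ 1 ∧ g ^ 2 = 1) ∧
    (∀ r : Fin 3 → MonoidAlgebra ℤ (Grp relators),
      ∑ x, r x * (MonoidAlgebra.of ℤ (Grp relators) (val relators [(x, true)]) - 1) = 0 ↔
        ∃ a b : MonoidAlgebra ℤ (Grp relators), ∀ x,
          r x = a * fox relators x v.toWord + b * fox relators x w.toWord) ∧
    (∃ a b : MonoidAlgebra ℤ (Grp relators), (a ≠ 0 ∨ b ≠ 0) ∧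
      ∀ x, a * fox relators x v.toWord + b * fox relators x w.toWord = 0) ∧
    (∀ (m k : ℕ) (rel : Fin k → Word (Fin m)), Nonempty (G ≃* Grp rel) → m ≤ k) ∧
    (∀ (m n a b : ℕ) (rel : Fin n → Word (Fin m)) (extra : Fin b → Word (Fin m ⊕ Fin a)),
      Contractible (extend rel extra) → IsEmpty (G ≃* Grp rel)) :=
  ⟨⟨v_mem, w_mem, two_generated⟩, Gap.not_two, contractible_K, torsion, exact_vw, rows_dependent,
    Gap.generators_le, fun _ _ _ _ rel extra h => Gap.not_iso rel (sub_indep rel extra h)⟩

end Pool.Agent.Results.MP_6de9fc_gt.RelationModule
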